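import Pool.Agent.H93.CP.Targets

/-!
# Row PWD of the board cpt_modules: words and levels

Elementary facts about the words of a labelled graph with levels: words of a path are linearly
ordered by `initial word of`, a path is infinite if and only if it has words of all lengths, the
level of the end of a legal word is at least its length, two legal words with the same end of which
one is an initial word of the other are equal, and a path which shares arbitrarily long words with
a second path is equal to it.
-/

set_option autoImplicit false

open Set Filter Topology Pool.Agent.H93.CP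

namespace Pool.Agent.H75.CPT

variable {G : Type} (S : Gr G)

/-- The end of a concatenation. -/
lemma fin_append (a : S.O) (u w : List S.E) : S.fin a (u ++ w) = S.fin (S.fin a u) w := by
  simp only [Gr.fin, List.foldl_append]

/-- Legality of a concatenation. -/
lemma leg_append (a : S.O) (u w : List S.E) :
    S.Leg a (u ++ w) ↔ S.Leg a u ∧ S.Leg (S.fin a u) w := by
  induction u generalizing a with
  | nil => simp [Gr.Leg, Gr.fin]
  | cons e u ih =>
    rw [List.cons_append]
    change (S.src e = a ∧ S.Leg (S.tgt e) (u ++ w)) ↔
      (S.src e = a ∧ S.Leg (S.tgt e) u) ∧ S.Leg (S.fin (S.tgt e) u) w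
    rw [ih (S.tgt e), and_assoc]

/-- The level grows by at least one along each edge of a legal word. -/
lemma lev_add_length_le (a : S.O) (w : List S.E) (h : S.Leg a w) :
    S.lev a + w.length ≤ S.lev (S.fin a w) := by
  induction w generalizing a with
  | nil => exact le_rfl
  | cons e w ih =>
    obtain ⟨h1, h2⟩ := (h : S.src e = a ∧ S.Leg (S.tgt e) w)
    have h3 := ih (S.tgt e) h2
    have h4 := S.lev_lt e
    rw [h1] at h4
    change S.lev a + (w.length + 1) ≤ S.lev (S.fin (S.tgt e) w)
    omega

/-- Levels of the ends are monotone for the relation `initial word of`, strictly in the length. -/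
lemma lev_append_le (u t : List S.E) (h : S.Leg S.root (u ++ t)) :
    S.lev (S.fin S.root u) + t.length ≤ S.lev (S.fin S.root (u ++ t)) := by
  rw [fin_append]
  exact lev_add_length_le S _ t ((leg_append S S.root u t).1 h).2

/-- The shorter of two words of a path is an initial word of the other. -/
lemma prefix_of_length_le (y : S.Path) (u w : List S.E) (hu : S.Mem u y) (hw : S.Mem w y)
    (hl : u.length ≤ w.length) : u <+: w := by
  rcases y.2.lin u w hu hw with h | h
  · exact h
  · have h1 : w.length = u.length := le_antisymm h.length_le hl
    rw [h.eq_of_length h1]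

/-- Words of an infinite path can be extended within the path. -/
lemma exists_longer (y : S.Path) (hy : S.Inf y) (w : List S.E) (hw : S.Mem w y) :
    ∃ u, S.Mem u y ∧ w.length < u.length := by
  have h1 := hy (S.lev (S.fin S.root w))
  unfold Gr.Bdd at h1
  push Not at h1
  obtain ⟨u, hu, hlt⟩ := h1
  refine ⟨u, hu, ?_⟩
  by_contra hle
  obtain ⟨t, rfl⟩ := prefix_of_length_le S y u w hu hw (not_lt.1 hle)
  have h2 := lev_append_le S u t (y.2.leg _ hw)
  omega

/-- An infinite path has a word of each length. -/
lemma exists_length (y : S.Path) (hy : S.Inf y) (n : ℕ) : ∃ w, S.Mem w y ∧ w.length = n := by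
  have h1 : ∀ m : ℕ, ∃ w, S.Mem w y ∧ m ≤ w.length := by
    intro m
    induction m with
    | zero => exact ⟨[], y.2.nil, Nat.zero_le _⟩
    | succ m ih =>
      obtain ⟨w, hw, hm⟩ := ih
      obtain ⟨u, hu, hlt⟩ := exists_longer S y hy w hw
      exact ⟨u, hu, by omega⟩
  obtain ⟨w, hw, hn⟩ := h1 n
  exact ⟨w.take n, y.2.pre _ _ (List.take_prefix n w) hw, by
    rw [List.length_take]
    exact min_eq_left hn⟩

/-- Row PWD. -/
theorem pf_PWD : T_PWD := by
  intro G S
  refine ⟨?_, ?_, ?_, ?_, ?_, ?_, ?_, ?_⟩
  · intro y u w hu hw hl
    exact (prefix_of_length_le S y u w hu hw hl.le).eq_of_length hl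
  · intro y u w hu hw hl
    exact prefix_of_length_le S y u w hu hw hl
  · intro y
    constructor
    · intro hy n
      exact exists_length S y hy n
    · intro h l hl
      obtain ⟨w, hw, hlen⟩ := h (l + 1)
      have h1 := lev_add_length_le S S.root w (y.2.leg w hw)
      have h2 := hl w hw
      omega
  · intro w hw
    have h1 := lev_add_length_le S S.root w hw
    omega
  · intro u w _ hw he hp
    obtain ⟨t, rfl⟩ := hp
    have h1 := lev_append_le S u t hw
    rw [← he] at h1
    have h2 : t.length = 0 := by omega
    rw [List.length_eq_zero_iff.1 h2, List.append_nil]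
  · intro a u w
    exact leg_append S a u w
  · intro a u w
    exact fin_append S a u w
  · intro y z _ h
    apply Subtype.ext
    funext u
    obtain ⟨w, hn, hy, hz⟩ := h u.length
    rw [Bool.eq_iff_iff]
    constructor
    · intro hu
      exact z.2.pre u w (prefix_of_length_le S y u w hu hy hn) hz
    · intro hu
      exact y.2.pre u w (prefix_of_length_le S z u w hu hz hn) hy

end Pool.Agent.H75.CPT
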