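import Pool.Agent.H93.CP.Targets

/-!
# Row SWP of the board cpt_modules: the exchange of two initial words

For two legal words with the same end the map which replaces one by the other as an initial word
(in both directions) and fixes all other paths is a homeomorphism of the space of paths, and the
quotient of the products of the labels is a continuous function on the space of paths.
-/

set_option autoImplicit false

open Set Filter Topology Pool.Agent.H93.CP

namespace Pool.Agent.H75.CPT

variable {G : Type} (S : Gr G)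

/-- The words of a replaced path. -/
lemma mem_rep_iff (r r' w : List S.E) (y z : S.Path) (h : S.Rep r r' y z) :
    S.Mem w z ↔ w <+: r' ∨ ∃ t, w = r' ++ t ∧ S.Mem (r ++ t) y := by
  obtain ⟨_, h2, h3⟩ := h
  constructor
  · intro hw
    rcases z.2.lin w r' hw h2 with h4 | ⟨t, ht⟩
    · exact Or.inl h4
    · refine Or.inr ⟨t, ht.symm, (h3 t).1 ?_⟩
      rw [ht]
      exact hw
  · rintro (h4 | ⟨t, rfl, ht⟩)
    · exact z.2.pre w r' h4 h2
    · exact (h3 t).2 ht

/-- The condition of the preceding lemma is clopen. -/
lemma isClopen_rep (hcl : ∀ w, IsClopen {y : S.Path | S.Mem w y}) (r r' w : List S.E) :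
    IsClopen {y : S.Path | w <+: r' ∨ ∃ t, w = r' ++ t ∧ S.Mem (r ++ t) y} := by
  by_cases h1 : w <+: r'
  · have h2 : {y : S.Path | w <+: r' ∨ ∃ t, w = r' ++ t ∧ S.Mem (r ++ t) y} = univ := by
      ext y
      simp [h1]
    rw [h2]
    exact isClopen_univ
  · by_cases h3 : ∃ t, w = r' ++ t
    · obtain ⟨t, rfl⟩ := h3
      have h2 : {y : S.Path | r' ++ t <+: r' ∨ ∃ t', r' ++ t = r' ++ t' ∧ S.Mem (r ++ t') y} =
          {y : S.Path | S.Mem (r ++ t) y} := by
        ext y
        constructor
        · rintro (h | ⟨t', h4, h5⟩)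
          · exact absurd h h1
          · rw [List.append_cancel_left h4]
            exact h5
        · intro h
          exact Or.inr ⟨t, rfl, h⟩
      rw [h2]
      exact hcl _
    · have h2 : {y : S.Path | w <+: r' ∨ ∃ t, w = r' ++ t ∧ S.Mem (r ++ t) y} = ∅ := by
        ext y
        constructor
        · rintro (h | ⟨t, h4, _⟩)
          · exact absurd h h1
          · exact absurd ⟨t, h4⟩ h3
        · intro h
          exact absurd h (notMem_empty y)
      rw [h2]
      exact isClopen_empty

/-- A self-map of the space of paths is continuous if the sets of all paths whose image has a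
given word are clopen. -/
lemma continuous_of_clopen (f : S.Path → S.Path)
    (h : ∀ w, IsClopen {y : S.Path | S.Mem w (f y)}) : Continuous f := by
  refine Continuous.subtype_mk (f := fun y => (f y).1) ?_ (fun y => (f y).2)
  refine continuous_pi fun w => ?_
  exact (continuous_bool_rng true).2 (h w)

/-- A function of two bits of the path is continuous. -/
lemma continuous_bits {A : Type} [TopologicalSpace A] (r r' : List S.E) (φ : Bool × Bool → A) :
    Continuous (fun y : S.Path => φ (y.1 r, y.1 r')) := by
  have h1 : Continuous (fun y : S.Path => (y.1 r, y.1 r')) :=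
    ((continuous_apply r).comp continuous_subtype_val).prodMk
      ((continuous_apply r').comp continuous_subtype_val)
  exact (continuous_of_discreteTopology (f := φ)).comp h1

/-- The homeomorphism which exchanges two incomparable initial words with the same end. -/
lemma exists_exchange (hPRP : T_PRP) (hPCO : T_PCO) (r r' : List S.E)
    (hr : S.Leg S.root r) (hr' : S.Leg S.root r') (he : S.fin S.root r = S.fin S.root r')
    (hno : ∀ y : S.Path, S.Mem r y → S.Mem r' y → False) :
    ∃ h : S.Path ≃ₜ S.Path, (∀ y, S.Mem r y → S.Rep r r' y (h y)) ∧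
      (∀ y, S.Mem r' y → S.Rep r' r y (h y)) ∧
      ∀ y, ¬ S.Mem r y → ¬ S.Mem r' y → h y = y := by
  classical
  obtain ⟨hex, huni, hsym, -, -, -, -⟩ := hPRP G S
  obtain ⟨-, -, -, -, -, hcl⟩ := hPCO G S
  have key : ∀ y : S.Path, ∃ z : S.Path, (S.Mem r y → S.Rep r r' y z) ∧
      (S.Mem r' y → S.Rep r' r y z) ∧ (¬ S.Mem r y → ¬ S.Mem r' y → z = y) := by
    intro y
    by_cases h1 : S.Mem r y
    · obtain ⟨z, hz⟩ := hex r r' y h1 hr' he
      exact ⟨z, fun _ => hz, fun h2 => (hno y h1 h2).elim, fun h2 => absurd h1 h2⟩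
    · by_cases h2 : S.Mem r' y
      · obtain ⟨z, hz⟩ := hex r' r y h2 hr he.symm
        exact ⟨z, fun h => absurd h h1, fun _ => hz, fun _ h => absurd h2 h⟩
      · exact ⟨y, fun h => absurd h h1, fun h => absurd h h2, fun _ _ => rfl⟩
  choose f hf1 hf2 hf3 using key
  have hinv : ∀ y, f (f y) = y := by
    intro y
    by_cases h1 : S.Mem r y
    · have h2 := hf1 y h1
      exact huni r' r (f y) _ _ (hf2 (f y) h2.2.1) (hsym r r' y (f y) h2)
    · by_cases h2 : S.Mem r' y
      · have h3 := hf2 y h2
        exact huni r r' (f y) _ _ (hf1 (f y) h3.2.1) (hsym r' r y (f y) h3)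
      · rw [hf3 y h1 h2, hf3 y h1 h2]
  have hcont : Continuous f := by
    refine continuous_of_clopen S f fun w => ?_
    have h1 : {y : S.Path | S.Mem w (f y)} =
        ({y : S.Path | S.Mem r y} ∩
          {y : S.Path | w <+: r' ∨ ∃ t, w = r' ++ t ∧ S.Mem (r ++ t) y}) ∪
        (({y : S.Path | S.Mem r' y} ∩
          {y : S.Path | w <+: r ∨ ∃ t, w = r ++ t ∧ S.Mem (r' ++ t) y}) ∪
        (({y : S.Path | S.Mem r y}ᶜ ∩ {y : S.Path | S.Mem r' y}ᶜ) ∩
          {y : S.Path | S.Mem w y})) := by
      ext y
      by_cases h1 : S.Mem r y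
      · have h2 : ¬ S.Mem r' y := fun h => hno y h1 h
        simp only [mem_ofPred_eq, mem_union, mem_inter_iff, mem_compl_iff, h1, h2, true_and,
          false_and, not_true_eq_false, or_false]
        exact mem_rep_iff S r r' w y (f y) (hf1 y h1)
      · by_cases h2 : S.Mem r' y
        · simp only [mem_ofPred_eq, mem_union, mem_inter_iff, mem_compl_iff, h1, h2, true_and,
            false_and, not_true_eq_false, and_false, or_false, false_or]
          exact mem_rep_iff S r' r w y (f y) (hf2 y h2)
        · simp only [mem_ofPred_eq, mem_union, mem_inter_iff, mem_compl_iff, h1, h2, true_and,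
            false_and, not_false_eq_true, false_or]
          rw [hf3 y h1 h2]
    rw [h1]
    exact ((hcl r).inter (isClopen_rep S hcl r r' w)).union
      (((hcl r').inter (isClopen_rep S hcl r' r w)).union
        (((hcl r).compl.inter (hcl r').compl).inter (hcl w)))
  exact ⟨{ toFun := f
           invFun := f
           left_inv := hinv
           right_inv := hinv
           continuous_toFun := hcont
           continuous_invFun := hcont }, hf1, hf2, hf3⟩

/-- Row SWP. -/
theorem pf_SWP (hPRP : T_PRP) (hPWD : T_PWD) (hPCO : T_PCO) : T_SWP := by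
  classical
  intro G _ _ S r r' hr hr' he
  by_cases hrr : r = r'
  · subst hrr
    refine ⟨⟨Homeomorph.refl _, ContinuousMap.const _ 1⟩, ?_, ?_, ?_⟩
    · intro y hy
      refine ⟨⟨hy, hy, fun t => Iff.rfl⟩, ?_⟩
      rw [mul_inv_cancel]
      rfl
    · intro y hy
      refine ⟨⟨hy, hy, fun t => Iff.rfl⟩, ?_⟩
      rw [mul_inv_cancel]
      rfl
    · intro y _ _
      exact ⟨rfl, rfl⟩
  · obtain ⟨-, -, -, -, hinc, -, -, -⟩ := hPWD G S
    have hno : ∀ y : S.Path, S.Mem r y → S.Mem r' y → False := by
      intro y h1 h2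
      rcases y.2.lin r r' h1 h2 with h | h
      · exact hrr (hinc r r' hr hr' he h)
      · exact hrr (hinc r' r hr' hr he.symm h).symm
    obtain ⟨h, h1, h2, h3⟩ := exists_exchange S hPRP hPCO r r' hr hr' he hno
    have hc : Continuous (fun y : S.Path => if y.1 r = true then S.pr r' * (S.pr r)⁻¹ else
        if y.1 r' = true then S.pr r * (S.pr r')⁻¹ else (1 : G)) :=
      continuous_bits S r r' (fun b : Bool × Bool =>
        if b.1 = true then S.pr r' * (S.pr r)⁻¹ else
          if b.2 = true then S.pr r * (S.pr r')⁻¹ else (1 : G))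
    refine ⟨⟨h, ⟨_, hc⟩⟩, ?_, ?_, ?_⟩
    · intro y hy
      have h4 : y.1 r = true := hy
      exact ⟨h1 y hy, if_pos h4⟩
    · intro y hy
      have h4 : ¬ y.1 r = true := fun h => hno y h hy
      have h5 : y.1 r' = true := hy
      exact ⟨h2 y hy, (if_neg h4).trans (if_pos h5)⟩
    · intro y hy hy'
      have h4 : ¬ y.1 r = true := hy
      have h5 : ¬ y.1 r' = true := hy'
      exact ⟨h3 y hy hy', (if_neg h4).trans (if_neg h5)⟩

end Pool.Agent.H75.CPT
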